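import Pool.Agent.Helper42.QD.Stmts

namespace Pool.Agent.Helper52.QD

open Pool.Agent.Helper42.QD

section
variable {D k : Type} [DivisionRing D] [Field k] (c : VD D k) {V : Type} [AddCommGroup V]
  [Module ℂ V]

open Classical in
/-- The Kirillov map. -/
noncomputable def kmap (rho : Representation ℂ (G2 D) V) (l : V →ₗ[ℂ] ℂ)
    (h3 : ∀ v : V, IsS c (fun x => if x = 0 then 0 else l (rho (dg x 1) v))) :
    V →ₗ[ℂ] Sp c where
  toFun v := ⟨fun x => if x = 0 then 0 else l (rho (dg x 1) v), h3 v⟩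
  map_add' u v := by
    apply Subtype.ext
    funext x
    by_cases hx : x = 0 <;> simp [hx]
  map_smul' a v := by
    apply Subtype.ext
    funext x
    by_cases hx : x = 0 <;> simp [hx]

open Classical in
theorem kmap_zero (rho : Representation ℂ (G2 D) V) (l : V →ₗ[ℂ] ℂ)
    (h3 : ∀ v : V, IsS c (fun x => if x = 0 then 0 else l (rho (dg x 1) v))) (v : V) :
    (kmap c rho l h3 v).1 0 = 0 := by
  simp [kmap]

open Classical in
theorem kmap_ne (rho : Representation ℂ (G2 D) V) (l : V →ₗ[ℂ] ℂ)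
    (h3 : ∀ v : V, IsS c (fun x => if x = 0 then 0 else l (rho (dg x 1) v))) (v : V) {x : D}
    (hx : x ≠ 0) : (kmap c rho l h3 v).1 x = l (rho (dg x 1) v) := by
  simp [kmap, hx]

end

theorem st_KIR (h1 : ST_K1) (h2 : ST_K2) (h3 : ST_K3) (h4 : ST_K4) : ST_KIR := by
  classical
  intro D k _ _ _ c V _ _ rho hC hsm hcusp hfin
  obtain ⟨l, om, ⟨v0, hv0⟩, hl, hln, hlz⟩ := h1 D k c V rho hfin
  have hS : ∀ v : V, IsS c (fun x => if x = 0 then 0 else l (rho (dg x 1) v)) := by
    intro v
    have h := h3 D k c V rho l hsm hcusp hln v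
    simpa only using h
  have rmul : ∀ (g h : G2 D) (v : V), rho (g * h) v = rho g (rho h v) := by
    intro g h v
    rw [map_mul]
    rfl
  -- the two formulas
  have hn : ∀ (b : D) (v : V) (x : D), (kmap c rho l hS (rho (nn b) v)).1 x =
      c.psi (x * b) * (kmap c rho l hS v).1 x := by
    intro b v x
    by_cases hx : x = 0
    · rw [hx, kmap_zero, kmap_zero, mul_zero]
    · rw [kmap_ne c rho l hS _ hx, kmap_ne c rho l hS _ hx, ← rmul]
      have : dg x 1 * nn b = nn (x * b) * dg x 1 := by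
        have h := dg_nn hx (one_ne_zero (α := D)) b
        simpa using h
      rw [this, rmul, hln]
  have ht : ∀ (a d : D), a ≠ 0 → d ≠ 0 → ∀ (v : V) (x : D),
      (kmap c rho l hS (rho (dg a d) v)).1 x = om d * (kmap c rho l hS v).1 (d⁻¹ * x * a) := by
    intro a d ha hd v x
    by_cases hx : x = 0
    · rw [hx, kmap_zero, mul_zero, zero_mul, kmap_zero, mul_zero]
    · have hx' : d⁻¹ * x * a ≠ 0 := mul_ne_zero (mul_ne_zero (inv_ne_zero hd) hx) ha
      rw [kmap_ne c rho l hS _ hx, kmap_ne c rho l hS _ hx', ← rmul, ← hlz d hd, ← rmul,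
        dg_mul hx one_ne_zero ha hd, dg_mul hd hd hx' one_ne_zero, mul_assoc d⁻¹,
        mul_inv_cancel_left₀ hd, one_mul, mul_one]
  have hinj : Function.Injective (kmap c rho l hS) := by
    rw [injective_iff_map_eq_zero]
    intro v hv
    apply h2 D k c V rho l hC hsm hcusp hl v
    intro x hx
    rw [← kmap_ne c rho l hS v hx, hv]
    rfl
  have hone : dg (1 : D) 1 = 1 := by
    apply ext2 <;> rw [dg_val one_ne_zero one_ne_zero] <;> simp
  have hrange : LinearMap.range (kmap c rho l hS) = ⊤ := by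
    apply h4 D k c om
    · refine ⟨kmap c rho l hS v0, ⟨v0, rfl⟩, fun h => hv0 ?_⟩
      have h' : (kmap c rho l hS v0).1 1 = 0 := by rw [h]; rfl
      rw [kmap_ne c rho l hS v0 one_ne_zero, hone, map_one] at h'
      exact h'
    · rintro b f g ⟨v, rfl⟩ hg
      refine ⟨rho (nn b) v, ?_⟩
      apply Subtype.ext
      funext x
      rw [hn, hg]
    · rintro a d f g ha hd ⟨v, rfl⟩ hg
      refine ⟨rho (dg a d) v, ?_⟩
      apply Subtype.ext
      funext x
      rw [ht a d ha hd, hg]
  let e : V ≃ₗ[ℂ] Sp c := LinearEquiv.ofBijective (kmap c rho l hS)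
    ⟨hinj, LinearMap.range_eq_top.mp hrange⟩
  have he : ∀ v, e v = kmap c rho l hS v := fun v => rfl
  let rho' : Representation ℂ (G2 D) (Sp c) :=
    { toFun := fun g => e.toLinearMap ∘ₗ rho g ∘ₗ e.symm.toLinearMap
      map_one' := by
        ext f
        simp
      map_mul' := fun g h => by
        ext f
        simp }
  have hr : ∀ (g : G2 D) (f : Sp c), rho' g f = kmap c rho l hS (rho g (e.symm f)) :=
    fun g f => rfl
  have hes : ∀ f : Sp c, kmap c rho l hS (e.symm f) = f := fun f => e.apply_symm_apply f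
  exact ⟨{
    om := om
    rho := rho'
    rn := fun b f x => by
      rw [hr, hn, hes]
    rt := fun a d ha hd f x => by
      rw [hr, ht a d ha hd, hes]
    sm := fun f => by
      obtain ⟨m, hm, h⟩ := hsm (e.symm f)
      refine ⟨m, hm, fun g hg => ?_⟩
      rw [hr, h g hg, hes] }⟩

end Pool.Agent.Helper52.QD
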